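import Pool.Agent.H30.AW.Targets

/-!
# MP_70ba79_ag, board `aw_modules`: BO2, union of two conditions
-/

set_option autoImplicit false

namespace Pool.Agent.H1.AW

open MvPolynomial SC Pool.Agent.H27.LV Pool.Agent.H30.AV Pool.Agent.H30.AW

theorem pf_BO2 : T_BO2 := by
  intro k _ n q m Q V V' V'' h h' hV
  obtain ⟨Δ, B, hΔ, hB, H⟩ := h
  obtain ⟨Δ', B', hΔ', hB', H'⟩ := h'
  refine ⟨Δ * Δ', B + B', mul_ne_zero hΔ hΔ', by omega, ?_⟩
  intro a ha μ hμ K _ _ _ htr S y x D hD hy hS hne hx hxe hV''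
  rw [map_mul] at ha
  have h1 := left_ne_zero_of_mul ha
  have h2 := right_ne_zero_of_mul ha
  have key : ∀ (b b' : ℕ) (χ d : ℤ), 0 ≤ d → 1 ≤ b → d ≤ b * χ → d ≤ ((b + b' : ℕ) : ℤ) * χ := by
    intro b b' χ d hd hb hle
    have hb' : (1 : ℤ) ≤ b := by exact_mod_cast hb
    have hχ : 0 ≤ χ := by
      by_contra hc
      push Not at hc
      nlinarith
    have : (0 : ℤ) ≤ (b' : ℤ) * χ := mul_nonneg (by positivity) hχ
    push_cast
    linarith
  rcases hV K y D hy hV'' with h3 | h3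
  · exact key B B' _ _ (Int.natCast_nonneg _) hB
      (H a h1 μ hμ K htr S y x D hD hy hS hne hx hxe h3)
  · rw [add_comm B B']
    exact key B' B _ _ (Int.natCast_nonneg _) hB'
      (H' a h2 μ hμ K htr S y x D hD hy hS hne hx hxe h3)

end Pool.Agent.H1.AW
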